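import Pool.Agent.V7H62.DH.Spec2

/-!
# The rational span of the tails and their linear independence do not depend on `N`
-/

set_option autoImplicit false

open Filter Finset Submodule

namespace Pool.Agent.V7H67.DH

open Pool.Agent.V7H62.DH

section general

variable {ι V : Type*} [AddCommGroup V] [Module ℚ V] {f g : ι → V} {l : ι → ℕ}

/-- `f i - g i` is a combination of the `g j` of smaller rank. -/
def Unitri (f g : ι → V) (l : ι → ℕ) : Prop := ∀ i, f i - g i ∈ span ℚ (g '' {j | l j < l i})

lemma Unitri.symm (h : Unitri f g l) : Unitri g f l := by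
  have key : ∀ k : ℕ, ∀ i, l i = k → g i - f i ∈ span ℚ (f '' {j | l j < l i}) := by
    intro k
    induction k using Nat.strong_induction_on with
    | _ k ih =>
      intro i hi
      have h1 : span ℚ (g '' {j | l j < l i}) ≤ span ℚ (f '' {j | l j < l i}) := by
        rw [span_le]
        rintro _ ⟨j, hj, rfl⟩
        have hj' : l j < l i := hj
        have h2 := ih (l j) (hi ▸ hj') j rfl
        have h3 : span ℚ (f '' {m | l m < l j}) ≤ span ℚ (f '' {m | l m < l i}) :=
          span_mono (Set.image_mono fun m (hm : l m < l j) => lt_trans hm hj')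
        have h4 : f j ∈ span ℚ (f '' {m | l m < l i}) := subset_span ⟨j, hj, rfl⟩
        have h5 := add_mem (h3 h2) h4
        rw [sub_add_cancel] at h5
        exact h5
      have h6 := h1 (h i)
      rw [← neg_sub]
      exact neg_mem h6
  exact fun i => key (l i) i rfl

lemma Unitri.span_le (h : Unitri f g l) : span ℚ (Set.range f) ≤ span ℚ (Set.range g) := by
  rw [Submodule.span_le]
  rintro _ ⟨i, rfl⟩
  have h1 : span ℚ (g '' {j | l j < l i}) ≤ span ℚ (Set.range g) :=
    span_mono (Set.image_subset_range _ _)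
  have h2 : g i ∈ span ℚ (Set.range g) := subset_span ⟨i, rfl⟩
  have h3 := add_mem (h1 (h i)) h2
  rw [sub_add_cancel] at h3
  exact h3

lemma Unitri.span_eq (h : Unitri f g l) : span ℚ (Set.range f) = span ℚ (Set.range g) :=
  le_antisymm h.span_le h.symm.span_le

lemma Unitri.li (h : Unitri f g l) (hg : LinearIndependent ℚ g) : LinearIndependent ℚ f := by
  classical
  rw [linearIndependent_iff']
  intro F c hc
  by_contra hne
  push Not at hne
  obtain ⟨i1, hi1, hi1'⟩ := hne
  obtain ⟨i0, hi0, hmax⟩ := Finset.exists_max_image (F.filter fun i => c i ≠ 0) l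
    ⟨i1, Finset.mem_filter.2 ⟨hi1, hi1'⟩⟩
  have hi0' := (Finset.mem_filter.1 hi0).2
  have h1 : ∑ i ∈ F, c i • g i + ∑ i ∈ F, c i • (f i - g i) = 0 := by
    rw [← Finset.sum_add_distrib, ← hc]
    exact Finset.sum_congr rfl fun i _ => by rw [← smul_add]; congr 1; abel
  have h2 : ∑ i ∈ F, c i • (f i - g i) ∈ span ℚ (g '' {j | l j < l i0}) := by
    refine sum_mem fun i hi => ?_
    by_cases hci : c i = 0
    · rw [hci, zero_smul]; exact zero_mem _
    · have h3 := hmax i (Finset.mem_filter.2 ⟨hi, hci⟩)
      exact smul_mem _ _ (span_mono (Set.image_mono fun m (hm : l m < l i) =>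
        lt_of_lt_of_le hm h3) (h i))
  have h3 : ∑ i ∈ F.filter (fun i => l i = l i0), c i • g i ∈ span ℚ (g '' {j | l j < l i0}) := by
    have h4 : ∑ i ∈ F, c i • g i = ∑ i ∈ F.filter (fun i => l i = l i0), c i • g i +
        ∑ i ∈ F.filter (fun i => ¬ l i = l i0), c i • g i :=
      (Finset.sum_filter_add_sum_filter_not _ _ _).symm
    have h5 : ∑ i ∈ F.filter (fun i => ¬ l i = l i0), c i • g i ∈
        span ℚ (g '' {j | l j < l i0}) := by
      refine sum_mem fun i hi => ?_
      rw [Finset.mem_filter] at hi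
      by_cases hci : c i = 0
      · rw [hci, zero_smul]; exact zero_mem _
      · have h6 := hmax i (Finset.mem_filter.2 ⟨hi.1, hci⟩)
        exact smul_mem _ _ (subset_span ⟨i, lt_of_le_of_ne h6 hi.2, rfl⟩)
    have h6 : ∑ i ∈ F.filter (fun i => l i = l i0), c i • g i =
        -(∑ i ∈ F, c i • (f i - g i) + ∑ i ∈ F.filter (fun i => ¬ l i = l i0), c i • g i) := by
      rw [eq_neg_iff_add_eq_zero, ← h1, h4]
      abel
    rw [h6]
    exact neg_mem (add_mem h2 h5)
  have h4 : ∑ i ∈ F.filter (fun i => l i = l i0), c i • g i ∈ span ℚ (g '' {j | l j = l i0}) :=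
    sum_mem fun i hi => smul_mem _ _ (subset_span ⟨i, (Finset.mem_filter.1 hi).2, rfl⟩)
  have h5 : Disjoint (span ℚ (g '' {j | l j = l i0})) (span ℚ (g '' {j | l j < l i0})) := by
    refine hg.disjoint_span_image ?_
    rw [Set.disjoint_left]
    intro j hj hj'
    have e1 : l j = l i0 := hj
    have e2 : l j < l i0 := hj'
    omega
  have h6 := (Submodule.disjoint_def.1 h5) _ h4 h3
  exact hi0' ((linearIndependent_iff'.1 hg) _ c h6 i0
    (Finset.mem_filter.2 ⟨(Finset.mem_filter.1 hi0).1, rfl⟩))

end general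

theorem t_LI : S_LI := by
  intro htail S hS hpre
  have step : ∀ N : ℕ, Unitri (fun w : S => t w.1 N) (fun w : S => t w.1 (N + 1))
      (fun w : S => w.1.length) := by
    intro N w
    obtain ⟨w, hw⟩ := w
    rcases List.eq_nil_or_concat w with rfl | ⟨v, n, rfl⟩
    · have : t [] N - t [] (N + 1) = 0 := by simp [t]
      simp only [this]
      exact zero_mem _
    · rw [List.concat_eq_append] at hw
      have hv : v ∈ S := hpre v n hw
      have h1 := htail.2 v n (hS _ hw) N
      have h2 : t (v ++ [n]) N - t (v ++ [n]) (N + 1) =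
          ((((N : ℚ) + 1) ^ n)⁻¹ : ℚ) • t v (N + 1) := by
        rw [h1, Rat.smul_def]
        push_cast
        rw [add_sub_cancel_left, div_eq_mul_inv, mul_comm]
      simp only [List.concat_eq_append]
      rw [h2]
      refine smul_mem _ _ (subset_span ⟨⟨v, hv⟩, ?_, rfl⟩)
      simp
  have main : ∀ N : ℕ, Submodule.span ℚ (Set.range fun w : S => t w.1 N) =
      Submodule.span ℚ (Set.range fun w : S => t w.1 0) ∧
      (LinearIndependent ℚ (fun w : S => t w.1 N) ↔
        LinearIndependent ℚ (fun w : S => t w.1 0)) := by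
    intro N
    induction N with
    | zero => exact ⟨rfl, Iff.rfl⟩
    | succ N ih =>
      refine ⟨(step N).span_eq.symm.trans ih.1, Iff.trans ⟨fun h => ?_, fun h => ?_⟩ ih.2⟩
      · exact (step N).li h
      · exact (step N).symm.li h
  intro N
  rw [Set.image_eq_range, Set.image_eq_range]
  exact main N

end Pool.Agent.V7H67.DH
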